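import Pool.Agent.Helper36.PT.Norm

/-!
# T-STEP and T-SCALE: one Frobenius untwisting in fixed coordinates
-/

set_option autoImplicit false

namespace Pool.Agent.Helper36.PT

open Polynomial Finset Pool.Agent.Helper33 Pool.Agent.Helper33.PS Pool.Agent.Helper33.UB
  Pool.Agent.Helper45.FR Pool.Agent.Helper51.RatTree Pool.Agent.Helper93.RatODE
  Pool.Agent.Helper35.PS Pool.Agent.Helper55.RD

section

variable {K : Type} [Field K] (p : ℕ) [Fact p.Prime] [CharP K p]

theorem exists_root_poly {F : K[X]} (hF : ∀ i, ∃ c, c ^ p = F.coeff i) :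
    ∃ F₁ : K[X], ∀ i, F₁.coeff i ^ p = F.coeff i := by
  choose r hr using hF
  refine ⟨∑ i ∈ range (F.natDegree + 1), monomial i (r i), fun i => ?_⟩
  rw [finsetSum_coeff]
  simp only [coeff_monomial]
  rw [sum_ite_eq' (range (F.natDegree + 1)) i]
  split_ifs with h
  · exact hr i
  · rw [mem_range] at h
    rw [coeff_eq_zero_of_natDegree_lt (by omega), zero_pow (Fact.out : p.Prime).ne_zero]

theorem map_frob {F F₁ : K[X]} (hF : ∀ i, F₁.coeff i ^ p = F.coeff i) :
    F₁.map (frobenius K p) = F := by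
  ext i
  rw [coeff_map, frobenius_def, hF]

theorem eval_frob {F F₁ : K[X]} (hF : ∀ i, F₁.coeff i ^ p = F.coeff i) (z : K) :
    F.eval (z ^ p) = F₁.eval z ^ p := by
  rw [← map_frob p hF]
  rw [← frobenius_def, ← frobenius_def, eval_map_apply]

theorem isRat_root {d : ℕ} {F G F₁ G₁ : K[X]} (hFG : IsRat F G d)
    (hF : ∀ i, F₁.coeff i ^ p = F.coeff i) (hG : ∀ i, G₁.coeff i ^ p = G.coeff i) :
    IsRat F₁ G₁ d := by
  have hp : p ≠ 0 := (Fact.out : p.Prime).ne_zero
  have h1 := map_frob p hF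
  have h2 := map_frob p hG
  refine ⟨?_, ?_, ?_, ?_⟩
  · have h3 := hFG.cop
    rw [← h1, ← h2] at h3
    exact (isCoprime_map (frobenius K p)).1 h3
  · have h3 := hFG.dA
    rwa [← h1, natDegree_map] at h3
  · have h3 := hFG.dB
    rwa [← h2, natDegree_map] at h3
  · have h3 := hFG.top
    rw [← hF, ← hG] at h3
    exact h3.imp (fun h h0 => h (by rw [h0, zero_pow hp])) (fun h h0 => h (by rw [h0, zero_pow hp]))

theorem ratOrbit_root {F G F₁ G₁ : K[X]} {x z : ℕ → K} {N N' a : ℕ} (hx : RatOrbit F G x N)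
    (hF : ∀ i, F₁.coeff i ^ p = F.coeff i) (hG : ∀ i, G₁.coeff i ^ p = G.coeff i)
    (ha : a + N' ≤ N) (hz : ∀ j, z j ^ p = x (a + j)) : RatOrbit F₁ G₁ z N' := by
  have hp : p ≠ 0 := (Fact.out : p.Prime).ne_zero
  have hinj : ∀ u w : K, u ^ p = w ^ p → u = w := fun u w h => frobenius_inj K p h
  refine ⟨fun i h0 => ?_, fun i => ?_, fun i j hi hj hij => ?_, ?_⟩
  · apply hx.ne (a + i)
    rw [← hz i, eval_frob p hG, h0, zero_pow hp]
  · apply hinj
    rw [div_pow, ← eval_frob p hF, ← eval_frob p hG, hz, hz, ← hx.step (a + i), add_assoc]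
  · have h1 : x (a + i) = x (a + j) := by rw [← hz, ← hz, hij]
    have := hx.inj _ _ (by omega) (by omega) h1
    omega
  · refine Set.Finite.of_finite_image (f := fun u : K => u ^ p) (hx.fin.subset ?_)
      (fun u _ w _ h => hinj u w h)
    rintro _ ⟨_, ⟨j, rfl⟩, rfl⟩
    exact ⟨a + j, (hz j).symm⟩

end

section

variable {k K : Type} [Field k] [Field K] [Algebra k K] (p : ℕ) [Fact p.Prime] [CharP K p]

theorem map_hev_frob (P : K[X]) (n : ℕ) (U W : K[X]) :
    (hev P n U W).map (frobenius K p) =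
      hev (P.map (frobenius K p)) n (U.map (frobenius K p)) (W.map (frobenius K p)) := by
  unfold hev
  rw [Polynomial.map_sum]
  refine sum_congr rfl fun j _ => ?_
  rw [Polynomial.map_mul, Polynomial.map_mul, Polynomial.map_pow, Polynomial.map_pow,
    ← C_eq_algebraMap, map_C, coeff_map, C_eq_algebraMap]

theorem constConj_root [CharP k p] {d : ℕ} {F G F₁ G₁ : K[X]}
    (hF : ∀ i, F₁.coeff i ^ p = F.coeff i) (hG : ∀ i, G₁.coeff i ^ p = G.coeff i)
    (h : ConstConj k F₁ G₁ d) : ConstConj k F G d := by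
  have hp : p ≠ 0 := (Fact.out : p.Prime).ne_zero
  obtain ⟨A, P', Q', c, hA, hc, h1, h2, h3, h4, h5, h6⟩ := h
  have hcomm : ∀ R : k[X], (R.map (algebraMap k K)).map (frobenius K p) =
      (R.map (frobenius k p)).map (algebraMap k K) := by
    intro R
    rw [Polynomial.map_map, Polynomial.map_map]
    congr 1
    ext y
    simp [frobenius_def]
  refine ⟨A.map (frobenius K p), P'.map (frobenius k p), Q'.map (frobenius k p), c ^ p, ?_,
    pow_ne_zero _ hc, natDegree_map_le.trans h1, natDegree_map_le.trans h2, ?_, ?_, ?_, ?_⟩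
  · have := RingHom.map_det (frobenius K p) A
    rw [RingHom.mapMatrix_apply] at this
    rw [← this, frobenius_def]
    exact pow_ne_zero _ hA
  · rw [← hcomm, ← hcomm]
    exact h3.map (mapRingHom (frobenius K p))
  · rw [coeff_map, coeff_map, frobenius_def, frobenius_def]
    exact h4.imp (pow_ne_zero _) (pow_ne_zero _)
  · have h7 := congrArg (Polynomial.map (frobenius K p)) h5
    rw [map_hev_frob, map_frob p hF] at h7
    simp only [Polynomial.map_add, Polynomial.map_mul, map_C, map_X, hcomm] at h7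
    simpa [frobenius_def] using h7
  · have h7 := congrArg (Polynomial.map (frobenius K p)) h6
    rw [map_hev_frob, map_frob p hG] at h7
    simp only [Polynomial.map_add, Polynomial.map_mul, map_C, map_X, hcomm] at h7
    simpa [frobenius_def] using h7

end

/-- T-STEP: one Frobenius untwisting in fixed coordinates -/
theorem level_step {k K : Type} [Field k] [IsAlgClosed k] [Field K] [Algebra k K] (p : ℕ)
    [Fact p.Prime] [CharP k p] {d : ℕ} (hd : 1 ≤ d) {F G : K[X]} (hFG : IsRat F G d) {x : ℕ → K}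
    {N : ℕ} (hx : RatOrbit F G x N) (hnorm : ∃ i, F.coeff i = 1 ∨ G.coeff i = 1)
    (hF : ∀ i, ∃ c, c ^ p = F.coeff i) (hG : ∀ i, ∃ c, c ^ p = G.coeff i) (a N' : ℕ) (ha : a + N' ≤ N)
    (hD : ∀ j, ∃ c, c ^ p = x (a + j)) :
    ∃ (F₁ G₁ : K[X]) (z : ℕ → K), IsRat F₁ G₁ d ∧ RatOrbit F₁ G₁ z N' ∧
      (∃ i, F₁.coeff i = 1 ∨ G₁.coeff i = 1) ∧ (∀ j, z j ^ p = x (a + j)) ∧
      (∀ i, F₁.coeff i ^ p = F.coeff i) ∧ (∀ i, G₁.coeff i ^ p = G.coeff i) ∧
      (ConstConj k F₁ G₁ d → ConstConj k F G d) := by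
  have : CharP K p := charP_of_injective_algebraMap (algebraMap k K).injective p
  obtain ⟨F₁, hF₁⟩ := exists_root_poly p hF
  obtain ⟨G₁, hG₁⟩ := exists_root_poly p hG
  choose z hz using hD
  have h1 : ∀ c : K, c ^ p = 1 → c = 1 := fun c hc =>
    frobenius_inj K p (by simpa [frobenius_def] using hc)
  refine ⟨F₁, G₁, z, isRat_root p hFG hF₁ hG₁, ratOrbit_root p hx hF₁ hG₁ ha hz, ?_, hz, hF₁, hG₁,
    constConj_root p hF₁ hG₁⟩
  obtain ⟨i, hi⟩ := hnorm
  refine ⟨i, ?_⟩
  rw [← hF₁, ← hG₁] at hi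
  exact hi.imp (h1 _) (h1 _)

/-- T-SCALE -/
theorem gg_scale {K : Type} [Field K] (p : ℕ) [Fact p.Prime] [CharP K p] (v : DV K) {d : ℕ} (hd : 2 ≤ d)
    {F G F₁ G₁ : K[X]} (hFG : IsRat F G d) (hF : ∀ i, F₁.coeff i ^ p = F.coeff i)
    (hG : ∀ i, G₁.coeff i ^ p = G.coeff i) {x z : ℕ → K} {N N' a : ℕ} (hx : RatOrbit F G x N)
    (hz : RatOrbit F₁ G₁ z N') (hxz : ∀ j, z j ^ p = x (a + j)) (i j : ℕ) (hij : z i ≠ z j) :
    gg v d F G (ratH v d F G) (x (a + i)) (x (a + j)) =
      p * gg v d F₁ G₁ (ratH v d F₁ G₁) (z i) (z j) := by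
  have hp : p ≠ 0 := (Fact.out : p.Prime).ne_zero
  have hR := isRat_root p hFG hF hG
  -- iterates
  have hitx : ∀ n i, (rmap F G)^[n] (x (a + i)) = x (a + (i + n)) := by
    intro n
    induction n with
    | zero => intro i; rfl
    | succ n ih =>
      intro i
      rw [Function.iterate_succ', Function.comp, ih, rmap, ← hx.step, add_assoc, add_assoc]
  have hitz : ∀ n i, (rmap F₁ G₁)^[n] (z i) = z (i + n) := by
    intro n
    induction n with
    | zero => intro i; rfl
    | succ n ih =>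
      intro i
      rw [Function.iterate_succ', Function.comp, ih, rmap, ← hz.step, add_assoc]
  have hH : ∀ i, ratH v d F G (x (a + i)) = p * ratH v d F₁ G₁ (z i) := by
    intro i
    unfold ratH
    rw [← tsum_mul_left]
    refine tsum_congr fun n => ?_
    rw [hitx, hitz, ← hxz (i + n), eval_frob p hG, DV.o_pow _ _ (hz.ne _)]
    push_cast
    ring
  have hres : resultant F G d d = resultant F₁ G₁ d d ^ p := by
    rw [← map_frob p hF, ← map_frob p hG, resultant_map_map, frobenius_def]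
  have hres0 : resultant F₁ G₁ d d ≠ 0 :=
    resultant_ne_zero_of_isCoprime hR.cop hR.dA hR.dB
      (Pool.Agent.Helper33.UB.hmax_of_top hR.dA hR.dB hR.top) (by omega)
  unfold gg
  rw [hH, hH, hres, DV.o_pow _ _ hres0, ← hxz i, ← hxz j, ← sub_pow_char (z i) (z j),
    DV.o_pow _ _ (sub_ne_zero.2 hij)]
  push_cast
  ring

end Pool.Agent.Helper36.PT
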