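import Pool.Agent.Helper36.DT.Hom
import Pool.Agent.Helper93.RatHev

/-!
# T-MOB: relations and changes of coordinates
-/

set_option autoImplicit false

namespace Pool.Agent.Helper36.PT

open Polynomial Finset Pool.Agent.Helper93.RatODE Pool.Agent.Helper36.DT

variable {E : Type} [Field E]

theorem hev_mobius_ne_zero (N : ℕ) (a b c e : E) (h : a * e - b * c ≠ 0) (f : E[X])
    (hf : f.natDegree ≤ N) (hf0 : f ≠ 0) :
    hev f N (C a * X + C b) (C c * X + C e) ≠ 0 := by
  intro h0
  have h1 : hev (hev f N (C a * X + C b) (C c * X + C e)) (N * 1)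
      (algebraMap E[X] (RatFunc E) (C e * X - C b))
      (algebraMap E[X] (RatFunc E) (-(C c * X) + C a)) = 0 := by
    rw [h0, hev_zero_poly]
  have hU : (C a * X + C b : E[X]).natDegree ≤ 1 := natDegree_linear_le
  have hW : (C c * X + C e : E[X]).natDegree ≤ 1 := natDegree_linear_le
  rw [hev_comp f N hU hW] at h1
  have e1 : hev (C a * X + C b : E[X]) 1 (algebraMap E[X] (RatFunc E) (C e * X - C b))
      (algebraMap E[X] (RatFunc E) (-(C c * X) + C a)) =
      algebraMap E[X] (RatFunc E) (C (a * e - b * c) * X) := by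
    have : hev (C a * X + C b : E[X]) 1 (C e * X - C b) (-(C c * X) + C a) =
        C (a * e - b * c) * X := by
      simp [hev, sum_range_succ, coeff_X, coeff_C]
      ring
    have h2 := hev_map (IsScalarTower.toAlgHom E E[X] (RatFunc E)) (C a * X + C b : E[X]) 1
      (C e * X - C b) (-(C c * X) + C a)
    rw [this] at h2
    exact h2.symm
  have e2 : hev (C c * X + C e : E[X]) 1 (algebraMap E[X] (RatFunc E) (C e * X - C b))
      (algebraMap E[X] (RatFunc E) (-(C c * X) + C a)) =
      algebraMap E[X] (RatFunc E) (C (a * e - b * c)) := by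
    have : hev (C c * X + C e : E[X]) 1 (C e * X - C b) (-(C c * X) + C a) =
        C (a * e - b * c) := by
      simp [hev, sum_range_succ, coeff_X, coeff_C]
      ring
    have h2 := hev_map (IsScalarTower.toAlgHom E E[X] (RatFunc E)) (C c * X + C e : E[X]) 1
      (C e * X - C b) (-(C c * X) + C a)
    rw [this] at h2
    exact h2.symm
  rw [e1, e2] at h1
  have hD : algebraMap E[X] (RatFunc E) (C (a * e - b * c)) ≠ 0 := by
    rw [Ne, IsFractionRing.to_map_eq_zero_iff, C_eq_zero]
    exact h
  rw [hev_eq f N hf _ _ hD, map_mul, mul_div_cancel_left₀ _ hD] at h1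
  rcases mul_eq_zero.1 h1 with h2 | h2
  · exact pow_ne_zero _ hD h2
  · have h3 : aeval (algebraMap E[X] (RatFunc E) X) f = algebraMap E[X] (RatFunc E) f := by
      rw [aeval_algebraMap_apply, aeval_X_left_apply]
    rw [h3, IsFractionRing.to_map_eq_zero_iff] at h2
    exact hf0 h2

theorem rel_mobius_inner (m : ℕ) (a b c e : E) (h : a * e - b * c ≠ 0)
    (p : Polynomial (Polynomial E)) (hp : p ≠ 0) (hp1 : p.natDegree < m)
    (hp2 : ∀ i, (p.coeff i).natDegree < m) :
    ∃ q : Polynomial (Polynomial E), q ≠ 0 ∧ q.natDegree < m ∧ (∀ i, (q.coeff i).natDegree < m) ∧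
      ∀ x y : E, c * x + e ≠ 0 →
        (q.eval (C y)).eval x =
          (c * x + e) ^ (m - 1) * (p.eval (C y)).eval ((a * x + b) / (c * x + e)) := by
  classical
  have hm : 1 ≤ m := by omega
  set T : E[X] → E[X] := fun f => hev f (m - 1) (C a * X + C b) (C c * X + C e) with hT
  have hTdeg : ∀ f, (T f).natDegree ≤ m - 1 := by
    intro f
    have := hev_natDegree f (m - 1) (U := C a * X + C b) (W := C c * X + C e) (q := 1)
      natDegree_linear_le natDegree_linear_le
    rwa [mul_one] at this
  set q : Polynomial (Polynomial E) := ∑ j ∈ range m, monomial j (T (p.coeff j)) with hq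
  have hqc : ∀ i, q.coeff i = if i ∈ range m then T (p.coeff i) else 0 := by
    intro i
    rw [hq, finsetSum_coeff]
    simp only [coeff_monomial]
    rw [sum_ite_eq' (range m) i]
  refine ⟨q, ?_, ?_, ?_, ?_⟩
  · intro h0
    have h1 := hqc p.natDegree
    rw [if_pos (mem_range.2 hp1), h0, coeff_zero] at h1
    have h2 : p.coeff p.natDegree ≠ 0 := by
      rw [coeff_natDegree, Ne, leadingCoeff_eq_zero]
      exact hp
    exact hev_mobius_ne_zero (m - 1) a b c e h _ (by have := hp2 p.natDegree; omega) h2 h1.symm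
  · rw [Nat.lt_iff_le_pred (by omega), natDegree_le_iff_coeff_eq_zero]
    intro i hi
    rw [hqc, if_neg (by rw [mem_range]; omega)]
  · intro i
    rw [hqc]
    split_ifs
    · have := hTdeg (p.coeff i)
      omega
    · rw [natDegree_zero]; omega
  · intro x y hx
    have h1 : q.eval (C y) = ∑ j ∈ range m, T (p.coeff j) * C (y ^ j) := by
      rw [hq, eval_finsetSum]
      refine sum_congr rfl fun j _ => ?_
      rw [eval_monomial, C_pow]
    have h2 : p.eval (C y) = ∑ j ∈ range m, p.coeff j * C (y ^ j) := by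
      rw [eval_eq_sum_range' hp1]
      refine sum_congr rfl fun j _ => ?_
      rw [C_pow]
    rw [h1, h2, eval_finsetSum, eval_finsetSum, mul_sum]
    refine sum_congr rfl fun j _ => ?_
    rw [eval_mul, eval_C, eval_mul, eval_C, hT]
    simp only [hev_eval]
    rw [show (C a * X + C b : E[X]).eval x = a * x + b by simp,
      show (C c * X + C e : E[X]).eval x = c * x + e by simp,
      hev_eq_eval _ _ (by have := hp2 j; omega) _ _ hx]
    ring

theorem eval_swap (p : Polynomial (Polynomial E)) (x y : E) :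
    ((Bivariate.swap p).eval (C y)).eval x = (p.eval (C x)).eval y := by
  have h1 := Bivariate.aevalAeval_swap x y p
  rw [coe_aevalAeval_eq_evalEval, coe_aevalAeval_eq_evalEval] at h1
  exact h1

/-- T-MOB: relations and changes of coordinates -/
theorem rel_mobius (m : ℕ) (a b c e a' b' c' e' : E) (h : a * e - b * c ≠ 0)
    (h' : a' * e' - b' * c' ≠ 0) (p : Polynomial (Polynomial E)) (hp : p ≠ 0) (hp1 : p.natDegree < m)
    (hp2 : ∀ i, (p.coeff i).natDegree < m) :
    ∃ q : Polynomial (Polynomial E), q ≠ 0 ∧ q.natDegree < m ∧ (∀ i, (q.coeff i).natDegree < m) ∧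
      ∀ x y : E, c * x + e ≠ 0 → c' * y + e' ≠ 0 →
        (p.eval (C ((a' * y + b') / (c' * y + e')))).eval ((a * x + b) / (c * x + e)) = 0 →
        (q.eval (C y)).eval x = 0 := by
  obtain ⟨p1, h1, h2, h3, h4⟩ := rel_mobius_inner m a b c e h p hp hp1 hp2
  have hm : 1 ≤ m := by omega
  have hs0 : Bivariate.swap p1 ≠ 0 := by
    rw [Ne, EmbeddingLike.map_eq_zero_iff]
    exact h1
  have hs1 : (Bivariate.swap p1).natDegree < m := by
    have := natDegree_swap_le p1 (m - 1) (fun b => by have := h3 b; omega)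
    omega
  have hs2 : ∀ i, ((Bivariate.swap p1).coeff i).natDegree < m := by
    intro i
    have := natDegree_coeff_le_swap (Bivariate.swap p1) i
    rw [Bivariate.swap_swap_apply] at this
    omega
  obtain ⟨p2, g1, g2, g3, g4⟩ := rel_mobius_inner m a' b' c' e' h' _ hs0 hs1 hs2
  refine ⟨Bivariate.swap p2, ?_, ?_, ?_, ?_⟩
  · rw [Ne, EmbeddingLike.map_eq_zero_iff]
    exact g1
  · have := natDegree_swap_le p2 (m - 1) (fun b => by have := g3 b; omega)
    omega
  · intro i
    have := natDegree_coeff_le_swap (Bivariate.swap p2) i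
    rw [Bivariate.swap_swap_apply] at this
    omega
  · intro x y hx hy h0
    rw [eval_swap, g4 y x hy, eval_swap, h4 x _ hx, h0, mul_zero, mul_zero]

end Pool.Agent.Helper36.PT
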