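import Pool.Agent.Helper35.PS.Coord
import Pool.Agent.Helper33.PT.Defs

/-!
# T-NORM: normalisation at three points of an orbit
-/

set_option autoImplicit false

namespace Pool.Agent.Helper36.PT

open Polynomial Finset Pool.Agent.Helper33 Pool.Agent.Helper33.PS Pool.Agent.Helper33.UB
  Pool.Agent.Helper45.FR Pool.Agent.Helper51.RatTree Pool.Agent.Helper93.RatODE
  Pool.Agent.Helper35.PS

section

variable {k K : Type} [Field k] [Field K] [Algebra k K]

theorem constConj_of_smul {F G : K[X]} {d : ℕ} {s : K} (hs : s ≠ 0)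
    (h : ConstConj k (C s * F) (C s * G) d) : ConstConj k F G d := by
  obtain ⟨A, P', Q', c, hA, hc, h1, h2, h3, h4, h5, h6⟩ := h
  refine ⟨A, P', Q', s⁻¹ * c, hA, mul_ne_zero (inv_ne_zero hs) hc, h1, h2, h3, h4, ?_, ?_⟩
  · rw [hev_C_mul, ← C_eq_algebraMap] at h5
    rw [C_mul, mul_assoc, ← h5, ← mul_assoc, ← C_mul, inv_mul_cancel₀ hs, C_1, one_mul]
  · rw [hev_C_mul, ← C_eq_algebraMap] at h6
    rw [C_mul, mul_assoc, ← h6, ← mul_assoc, ← C_mul, inv_mul_cancel₀ hs, C_1, one_mul]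

theorem IsRat_smul {F G : K[X]} {d : ℕ} {s : K} (hs : s ≠ 0) (h : IsRat F G d) :
    IsRat (C s * F) (C s * G) d := by
  have hu : IsUnit (C s) := isUnit_C.2 (isUnit_iff_ne_zero.2 hs)
  refine ⟨?_, (natDegree_C_mul_le _ _).trans h.dA, (natDegree_C_mul_le _ _).trans h.dB, ?_⟩
  · exact (isCoprime_mul_unit_left hu F G).2 h.cop
  · rw [coeff_C_mul, coeff_C_mul]
    exact h.top.imp (mul_ne_zero hs) (mul_ne_zero hs)

theorem RatOrbit_smul {F G : K[X]} {x : ℕ → K} {N : ℕ} {s : K} (hs : s ≠ 0)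
    (h : RatOrbit F G x N) : RatOrbit (C s * F) (C s * G) x N := by
  refine ⟨fun i => ?_, fun i => ?_, h.inj, h.fin⟩
  · rw [eval_mul, eval_C]
    exact mul_ne_zero hs (h.ne i)
  · rw [eval_mul, eval_C, eval_mul, eval_C, mul_div_mul_left _ _ hs]
    exact h.step i

theorem hev_comp_poly (P : K[X]) (n : ℕ) {U W : K[X]} {q : ℕ} (hU : U.natDegree ≤ q)
    (hW : W.natDegree ≤ q) (u w : K[X]) :
    hev (hev P n U W) (n * q) u w = hev P n (hev U q u w) (hev W q u w) := by
  apply IsFractionRing.injective K[X] (RatFunc K)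
  have h := fun (R : K[X]) (m : ℕ) (a b : K[X]) =>
    hev_map (IsScalarTower.toAlgHom K K[X] (RatFunc K)) R m a b
  simp only [IsScalarTower.coe_toAlgHom'] at h
  rw [h, h, h, h]
  exact hev_comp P n hU hW _ _

theorem constConj_of_conj {F G : K[X]} {d : ℕ} {a b c e : K} (h : a * e - b * c ≠ 0)
    (hF : F.natDegree ≤ d) (hG : G.natDegree ≤ d)
    (hc : ConstConj k (cjP F G d a b c e) (cjQ F G d a b c e) d) : ConstConj k F G d := by
  obtain ⟨A, P', Q', s, hA, hs, h1, h2, h3, h4, h5, h6⟩ := hc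
  set U : K[X] := C (A 0 0) * X + C (A 0 1) with hU
  set W : K[X] := C (A 1 0) * X + C (A 1 1) with hW
  set p := P'.map (algebraMap k K) with hp
  set q := Q'.map (algebraMap k K) with hq
  -- the two forms in the new coordinate
  set U1 : K[X] := C (e * A 0 0 - b * A 1 0) * X + C (e * A 0 1 - b * A 1 1) with hU1
  set W1 : K[X] := C (a * A 1 0 - c * A 0 0) * X + C (a * A 1 1 - c * A 0 1) with hW1
  have hu : hev (C e * X - C b : K[X]) 1 U W = U1 := by
    have : hev (C e * X - C b : K[X]) 1 U W = C e * U - C b * W := by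
      simp [hev, sum_range_succ, coeff_X, coeff_C]
      ring
    rw [this, hU, hW, hU1]
    simp only [C_sub, C_mul]
    ring
  have hw : hev (C a - C c * X : K[X]) 1 U W = W1 := by
    have : hev (C a - C c * X : K[X]) 1 U W = C a * W - C c * U := by
      simp [hev, sum_range_succ, coeff_X, coeff_C]
      ring
    rw [this, hU, hW, hW1]
    simp only [C_sub, C_mul]
    ring
  have key : ∀ R : K[X], hev (hev R d (C e * X - C b) (C a - C c * X)) d U W = hev R d U1 W1 := by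
    intro R
    have := hev_comp_poly R d (lin1 (b := b) (e := e)).1 (lin2 (a := a) (c := c)).1 U W
    rw [mul_one, hu, hw] at this
    exact this
  have h5' : C a * hev F d U1 W1 + C b * hev G d U1 W1 = C s * (C (A 0 0) * p + C (A 0 1) * q) := by
    rw [← h5]
    unfold cjP
    rw [hev_add, hev_C_mul, hev_C_mul, key, key, C_eq_algebraMap, C_eq_algebraMap]
  have h6' : C c * hev F d U1 W1 + C e * hev G d U1 W1 = C s * (C (A 1 0) * p + C (A 1 1) * q) := by
    rw [← h6]
    unfold cjQ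
    rw [hev_add, hev_C_mul, hev_C_mul, key, key, C_eq_algebraMap, C_eq_algebraMap]
  set D := a * e - b * c with hD
  have hDC : (C D : K[X]) ≠ 0 := C_ne_zero.2 h
  refine ⟨!![e * A 0 0 - b * A 1 0, e * A 0 1 - b * A 1 1; a * A 1 0 - c * A 0 0,
    a * A 1 1 - c * A 0 1], P', Q', D⁻¹ * s, ?_, mul_ne_zero (inv_ne_zero h) hs, h1, h2, h3, h4,
    ?_, ?_⟩
  · rw [Matrix.det_fin_two_of]
    have : (e * A 0 0 - b * A 1 0) * (a * A 1 1 - c * A 0 1) - (e * A 0 1 - b * A 1 1) *
        (a * A 1 0 - c * A 0 0) = D * A.det := by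
      rw [Matrix.det_fin_two, hD]
      ring
    rw [this]
    exact mul_ne_zero h hA
  · change hev F d U1 W1 = C (D⁻¹ * s) * (C (e * A 0 0 - b * A 1 0) * p + C (e * A 0 1 - b * A 1 1) * q)
    apply mul_left_cancel₀ hDC
    rw [← mul_assoc, ← C_mul, ← mul_assoc, mul_inv_cancel₀ h, one_mul]
    have e1 : C D * hev F d U1 W1 = C e * (C a * hev F d U1 W1 + C b * hev G d U1 W1) -
        C b * (C c * hev F d U1 W1 + C e * hev G d U1 W1) := by
      rw [hD]
      simp only [C_sub, C_mul]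
      ring
    rw [e1, h5', h6']
    simp only [C_sub, C_mul]
    ring
  · change hev G d U1 W1 = C (D⁻¹ * s) * (C (a * A 1 0 - c * A 0 0) * p + C (a * A 1 1 - c * A 0 1) * q)
    apply mul_left_cancel₀ hDC
    rw [← mul_assoc, ← C_mul, ← mul_assoc, mul_inv_cancel₀ h, one_mul]
    have e1 : C D * hev G d U1 W1 = C a * (C c * hev F d U1 W1 + C e * hev G d U1 W1) -
        C c * (C a * hev F d U1 W1 + C b * hev G d U1 W1) := by
      rw [hD]
      simp only [C_sub, C_mul]
      ring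
    rw [e1, h5', h6']
    simp only [C_sub, C_mul]
    ring

end

/-- T-NORM -/
theorem exists_norm {k K V : Type} [Field k] [Infinite k] [Field K] [Algebra k K] (P : PSys k K V)
    (hP : ∀ v, ResK k (P.pl v)) {d : ℕ} (hd : 1 ≤ d) {F G : K[X]} (hFG : IsRat F G d) {x : ℕ → K}
    {N : ℕ} (hx : RatOrbit F G x N) (hN : 2 * d + 2 ≤ N) {α β γ : ℕ} (hαβ : α ≠ β) (hαγ : α ≠ γ)
    (hβγ : β ≠ γ) (hα : α ≤ N) (hβ : β ≤ N) (hγ : γ ≤ N) :
    ∃ (F' G' : K[X]) (z : ℕ → K), IsRat F' G' d ∧ RatOrbit F' G' z N ∧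
      (∃ i, F'.coeff i = 1 ∨ G'.coeff i = 1) ∧
      (∃ c : k, algebraMap k K c = z α) ∧ (∃ c : k, algebraMap k K c = z β) ∧
      (∃ c : k, algebraMap k K c = z γ) ∧ (ConstConj k F' G' d → ConstConj k F G d) ∧
      ∀ i j l m, Helper33.PS.cr (z i) (z j) (z l) (z m) =
        Helper33.PS.cr (x i) (x j) (x l) (x m) := by
  classical
  obtain ⟨-, -, z, a, b, c, e, hdet, hne, hz, -, -, hc1, hc2, hc3, -, -, -⟩ :=
    exists_coord P hP hFG hx {α, β, γ} (α := α) (β := β) (γ := γ) (by simp) (by simp) (by simp)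
      hαβ hαγ hβγ (by
        intro j hj
        simp only [mem_insert, mem_singleton] at hj
        rcases hj with rfl | rfl | rfl <;> assumption) ∅ (by simp)
  have hzf : z = fun j => (a * x j + b) / (c * x j + e) := funext hz
  have hR := IsRat.conj hdet hFG
  have hO := RatOrbit.conj hdet hFG.dA hFG.dB hx hne
  rw [← hzf] at hO
  set F₁ := cjP F G d a b c e with hF₁
  set G₁ := cjQ F G d a b c e with hG₁
  obtain ⟨s, hs, hs1⟩ : ∃ s : K, s ≠ 0 ∧ (s * F₁.coeff d = 1 ∨ s * G₁.coeff d = 1) := by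
    rcases hR.top with h | h
    · exact ⟨(F₁.coeff d)⁻¹, inv_ne_zero h, Or.inl (inv_mul_cancel₀ h)⟩
    · exact ⟨(G₁.coeff d)⁻¹, inv_ne_zero h, Or.inr (inv_mul_cancel₀ h)⟩
  refine ⟨C s * F₁, C s * G₁, z, IsRat_smul hs hR, RatOrbit_smul hs hO, ⟨d, ?_⟩, hc1, hc2, hc3,
    ?_, ?_⟩
  · rw [coeff_C_mul, coeff_C_mul]
    exact hs1
  · intro h
    exact constConj_of_conj hdet hFG.dA hFG.dB (constConj_of_smul hs h)
  · intro i j l m
    exact cr_mobius hdet ![x i, x j, x l, x m] ![z i, z j, z l, z m]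
      (by intro t; fin_cases t <;> simp [hne]) (by intro t; fin_cases t <;> simp [hz])

end Pool.Agent.Helper36.PT
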